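import Pool.Agent.H87.D3.Targets2

/-! Row CMP of the board d3h (MP_2697e3_an): the second moment about the line is controlled by the beta
number. -/

namespace Pool.Agent.H10.D3

open MeasureTheory Metric Set Filter Topology Pool.Agent.H87.SN Pool.Agent.H87.SH Pool.Agent.H87.AX
open Pool.Agent.H87.D3
open scoped ContDiff RealInnerProductSpace ENNReal

noncomputable section

lemma nsq3 {m : ℕ} (L : V →L[ℝ] E m) :
    nsq L = ‖L (bv 0)‖ ^ 2 + ‖L (bv 1)‖ ^ 2 + ‖L (bv 2)‖ ^ 2 := by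
  unfold nsq
  exact Fin.sum_univ_three _

lemma nzs3 {m : ℕ} (L : V →L[ℝ] E m) : nzs L = ‖L (bv 2)‖ ^ 2 := by
  unfold nzs
  rw [Fin.sum_univ_one]
  rfl

lemma nsq_nn {m : ℕ} (L : V →L[ℝ] E m) : 0 ≤ nsq L := by
  rw [nsq3]; positivity

lemma tz_abs {m : ℕ} (L : V →L[ℝ] E m) : |tz L| ≤ nsq L := by
  unfold tz
  rw [nsq3, nzs3, abs_le]
  constructor <;> nlinarith [sq_nonneg ‖L (bv 0)‖, sq_nonneg ‖L (bv 1)‖, sq_nonneg ‖L (bv 2)‖]

lemma tz_cont {m : ℕ} : Continuous (fun L : V →L[ℝ] E m => tz L) := by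
  unfold tz nsq nzs
  fun_prop

lemma norm3 (x : V) : ‖x‖ ^ 2 = x 0 ^ 2 + x 1 ^ 2 + x 2 ^ 2 := by
  rw [EuclideanSpace.norm_sq_eq]
  have := Fin.sum_univ_three (fun i : Fin (1 + 2) => ‖x i‖ ^ 2)
  simp only [Real.norm_eq_abs, sq_abs] at this ⊢
  exact this

lemma abs_le3 (x : V) (j : Fin (1 + 2)) : |x j| ≤ ‖x‖ := by
  have := EuclideanSpace.norm_sq_eq x
  have h2 : ‖x j‖ ^ 2 ≤ ‖x‖ ^ 2 := by
    rw [this]
    exact Finset.single_le_sum (f := fun i => ‖x i‖ ^ 2) (fun i _ => sq_nonneg _)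
      (Finset.mem_univ j)
  rw [← Real.norm_eq_abs]
  exact (pow_le_pow_iff_left₀ (norm_nonneg _) (norm_nonneg _) two_ne_zero).1 h2

lemma rho_sq {x : V} {b : ℝ} (h : rho x ≤ b) : x 0 ^ 2 + x 1 ^ 2 ≤ b ^ 2 := by
  have hb : 0 ≤ b := (Real.sqrt_nonneg _).trans h
  unfold rho at h
  exact (Real.sqrt_le_left hb).1 h

lemma ball_of {x x' : V} {t : ℝ} (ht : 0 < t) (h1 : x 0 ^ 2 + x 1 ^ 2 ≤ (2 * t) ^ 2)
    (h2 : x' 0 ^ 2 + x' 1 ^ 2 ≤ (t / 4) ^ 2) (h3 : |x 2 - x' 2| ≤ 9 / 4 * t) : x ∈ ball x' (8 * t) := by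
  rw [mem_ball, dist_eq_norm]
  have h4 := norm3 (x - x')
  have h5 : (x - x') 0 = x 0 - x' 0 := rfl
  have h6 : (x - x') 1 = x 1 - x' 1 := rfl
  have h7 : (x - x') 2 = x 2 - x' 2 := rfl
  rw [h5, h6, h7] at h4
  have h8 : (x 2 - x' 2) ^ 2 ≤ (9 / 4 * t) ^ 2 := sq_le_sq' (abs_le.1 h3).1 (abs_le.1 h3).2
  have h9 : ‖x - x'‖ ^ 2 < (8 * t) ^ 2 := by
    nlinarith [sq_nonneg (x 0 + x' 0), sq_nonneg (x 1 + x' 1), sq_pos_of_pos ht]
  exact (pow_lt_pow_iff_left₀ (norm_nonneg _) (by positivity) two_ne_zero).1 h9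

lemma bw_cont (z₀ r : ℝ) : Continuous (bw z₀ r) := by
  unfold bw
  fun_prop

lemma bw_nn {z₀ r : ℝ} (hr : 0 < r) (z : ℝ) : 0 ≤ bw z₀ r z := by
  unfold bw
  positivity

lemma bw_le {z₀ r : ℝ} (hr : 0 < r) (z : ℝ) : bw z₀ r z ≤ r⁻¹ := by
  unfold bw
  have : max 0 (1 - |(z - z₀) / r|) ≤ 1 := max_le zero_le_one (by linarith [abs_nonneg ((z - z₀) / r)])
  calc r⁻¹ * max 0 (1 - |(z - z₀) / r|) ≤ r⁻¹ * 1 := mul_le_mul_of_nonneg_left this (by positivity)
    _ = r⁻¹ := mul_one _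

lemma bw_zero {z₀ r z : ℝ} (hr : 0 < r) (hz : r ≤ |z - z₀|) : bw z₀ r z = 0 := by
  unfold bw
  rw [abs_div, abs_of_pos hr]
  have : 1 ≤ |z - z₀| / r := by rwa [le_div_iff₀ hr, one_mul]
  rw [max_eq_left (by linarith), mul_zero]

lemma int_tz {m : ℕ} (hMUF : T_MUF) (G : V → V →L[ℝ] E m)
    (hG : MemLp G 2 (volume.restrict (ball (0 : V) 2)))
    (f : V → ℝ) (B : ℝ) (hf : Measurable f) (hB : ∀ x ∈ ball (0 : V) 2, |f x| ≤ B) :
    IntegrableOn (fun x => f x * tz (G x)) (ball (0 : V) 2) := by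
  have h1 := ((hMUF m G hG).2.2.2.1 (ball 0 2) measurableSet_ball subset_rfl).1
  refine Integrable.mono' (h1.const_mul B)
    (hf.aestronglyMeasurable.mul (tz_cont.comp_aestronglyMeasurable hG.1)) ?_
  refine (ae_restrict_iff' measurableSet_ball).2 (Eventually.of_forall fun x hx => ?_)
  rw [Real.norm_eq_abs, abs_mul]
  exact mul_le_mul (hB x hx) (tz_abs _) (abs_nonneg _) ((abs_nonneg _).trans (hB x hx))

lemma dl_cont (a T : V) : Continuous (fun y => dl a T y) := by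
  unfold dl
  fun_prop

lemma hd_cont (y0 y1 s0 s1 : ℝ) : Continuous (fun y => hd y0 y1 s0 s1 y) := by
  unfold hd
  fun_prop

/-- The bound of a weighted integral by the second moment (Cauchy-Schwarz). -/
lemma cs_bound {m : ℕ} (G : V → V →L[ℝ] E m) (a T x' : V) (s W M : ℝ) (w f : V → ℝ)
    (hW : 0 < W) (hM : 0 < M) (hsub : ball x' s ⊆ ball 0 2)
    (hI1 : IntegrableOn (fun x => nsq (G x)) (ball x' s))
    (hM1 : ∫ x in ball x' s, nsq (G x) ≤ M)
    (hI2 : IntegrableOn (fun x => dl a T x * nsq (G x)) (ball x' s))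
    (hw : ∀ x, |w x| ≤ W) (hw0 : ∀ x ∉ ball x' s, w x = 0) (hf : ∀ x, f x ^ 2 ≤ 2 * dl a T x) :
    (∫ x in ball (0 : V) 2, w x * f x * tz (G x)) ^ 2 ≤
      2 * W ^ 2 * M * ∫ x in ball x' s, dl a T x * nsq (G x) := by
  set Q := ∫ x in ball x' s, dl a T x * nsq (G x) with hQ
  set X := ∫ x in ball (0 : V) 2, w x * f x * tz (G x) with hX
  have hQ0 : 0 ≤ Q := by
    refine integral_nonneg fun x => mul_nonneg ?_ (nsq_nn _)
    nlinarith [hf x, sq_nonneg (f x)]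
  have e1 : X = ∫ x in ball x' s, w x * f x * tz (G x) := by
    refine setIntegral_eq_of_subset_of_forall_sdiff_eq_zero measurableSet_ball hsub ?_
    intro x hx
    rw [hw0 x hx.2, zero_mul, zero_mul]
  have key : ∀ κ : ℝ, 0 < κ → |X| ≤ W / κ * Q + W * κ / 2 * M := by
    intro κ hκ
    have e2 : Integrable (fun x => W / κ * (dl a T x * nsq (G x)) + W * κ / 2 * nsq (G x))
        (volume.restrict (ball x' s)) := (hI2.const_mul _).add (hI1.const_mul _)
    have e3 : ‖∫ x in ball x' s, w x * f x * tz (G x)‖ ≤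
        ∫ x in ball x' s, (W / κ * (dl a T x * nsq (G x)) + W * κ / 2 * nsq (G x)) := by
      refine norm_integral_le_of_norm_le e2 (Eventually.of_forall fun x => ?_)
      rw [Real.norm_eq_abs, abs_mul, abs_mul]
      have h1 : |f x| ≤ dl a T x / κ + κ / 2 := by
        have h2 := hf x
        rw [← sq_abs] at h2
        rw [div_add_div _ _ hκ.ne' two_ne_zero, le_div_iff₀ (by positivity)]
        nlinarith [sq_nonneg (|f x| - κ)]
      have h3 : |w x| * |f x| ≤ W * (dl a T x / κ + κ / 2) :=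
        mul_le_mul (hw x) h1 (abs_nonneg _) hW.le
      have h4 : 0 ≤ W * (dl a T x / κ + κ / 2) :=
        mul_nonneg hW.le ((abs_nonneg _).trans h1)
      calc |w x| * |f x| * |tz (G x)| ≤ W * (dl a T x / κ + κ / 2) * nsq (G x) :=
            mul_le_mul h3 (tz_abs _) (abs_nonneg _) h4
        _ = W / κ * (dl a T x * nsq (G x)) + W * κ / 2 * nsq (G x) := by ring
    rw [integral_add (hI2.const_mul _) (hI1.const_mul _), integral_const_mul,
      integral_const_mul, Real.norm_eq_abs, ← e1] at e3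
    refine e3.trans ?_
    have : W * κ / 2 * ∫ x in ball x' s, nsq (G x) ≤ W * κ / 2 * M :=
      mul_le_mul_of_nonneg_left hM1 (by positivity)
    linarith
  rcases eq_or_lt_of_le (abs_nonneg X) with h0 | h0
  · have : X ^ 2 = 0 := by rw [← sq_abs, ← h0]; norm_num
    rw [this]
    positivity
  · have h1 := key (|X| / (W * M)) (by positivity)
    have h2 : W / (|X| / (W * M)) * Q = W ^ 2 * M * Q / |X| := by
      field_simp
    have h3 : W * (|X| / (W * M)) / 2 * M = |X| / 2 := by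
      field_simp
    rw [h2, h3] at h1
    have h4 : |X| / 2 ≤ W ^ 2 * M * Q / |X| := by linarith
    rw [le_div_iff₀ h0] at h4
    have h5 : |X| * |X| = X ^ 2 := by rw [← sq, sq_abs]
    nlinarith

lemma hd_le {x x' : V} {y0 y1 s0 s1 h t : ℝ} (ht : 0 < t) (hht : h ≤ t) (ht8 : t ≤ 1 / 8)
    (hy : |y0| + |y1| ≤ h / 50) (hs : |s0| + |s1| ≤ h / 50) (hx' : rho x' ≤ t / 4)
    (hx2 : |x' 2| + 2 * t + t / 4 ≤ 3 / 8) (hx : x ∈ ball x' (6 * t)) :
    |x 2 - x' 2| ≤ 6 * t ∧ hd y0 y1 s0 s1 x ≤ 50 * t ^ 2 := by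
  rw [mem_ball, dist_eq_norm] at hx
  have g1 : |x 2 - x' 2| ≤ 6 * t := (abs_le3 (x - x') 2).trans hx.le
  refine ⟨g1, ?_⟩
  have g2 : (x 0 - x' 0) ^ 2 + (x 1 - x' 1) ^ 2 ≤ (6 * t) ^ 2 := by
    have g3 := norm3 (x - x')
    have h5 : (x - x') 0 = x 0 - x' 0 := rfl
    have h6 : (x - x') 1 = x 1 - x' 1 := rfl
    have h7 : (x - x') 2 = x 2 - x' 2 := rfl
    rw [h5, h6, h7] at g3
    have g4 : ‖x - x'‖ ^ 2 ≤ (6 * t) ^ 2 := pow_le_pow_left₀ (norm_nonneg _) hx.le 2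
    have g5 := sq_nonneg (x 2 - x' 2)
    linarith
  have g3 : x' 0 ^ 2 + x' 1 ^ 2 ≤ (t / 4) ^ 2 := rho_sq hx'
  have g4 : |x 2| ≤ 9 / 8 := by
    have : |x 2| ≤ |x 2 - x' 2| + |x' 2| := by
      have := abs_add_le (x 2 - x' 2) (x' 2)
      rwa [sub_add_cancel] at this
    linarith
  have g5 : |y0 + s0 * x 2| ≤ |y0| + |s0| * (9 / 8) := by
    refine (abs_add_le _ _).trans ?_
    rw [abs_mul]
    have := mul_le_mul_of_nonneg_left g4 (abs_nonneg s0)
    linarith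
  have g6 : |y1 + s1 * x 2| ≤ |y1| + |s1| * (9 / 8) := by
    refine (abs_add_le _ _).trans ?_
    rw [abs_mul]
    have := mul_le_mul_of_nonneg_left g4 (abs_nonneg s1)
    linarith
  have g7 : |y0 + s0 * x 2| + |y1 + s1 * x 2| ≤ t / 20 := by linarith
  clear hx hx2 g1 g4 g5 g6 hy hs hx'
  unfold hd
  generalize y0 + s0 * x 2 = A at *
  generalize y1 + s1 * x 2 = B at *
  generalize hu : x 0 - x' 0 = u at *
  generalize hv : x 1 - x' 1 = v at *
  have hu' : x 0 = u + x' 0 := by rw [← hu]; ring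
  have hv' : x 1 = v + x' 1 := by rw [← hv]; ring
  rw [hu', hv']
  generalize x' 0 = p at *
  generalize x' 1 = q at *
  clear hu hv hu' hv'
  have g8 : A ^ 2 + B ^ 2 ≤ (t / 20) ^ 2 := by
    have k1 : A ^ 2 + B ^ 2 ≤ (|A| + |B|) ^ 2 := by
      rw [← sq_abs A, ← sq_abs B]
      have := mul_nonneg (abs_nonneg A) (abs_nonneg B)
      linarith [show (|A| + |B|) ^ 2 = |A| ^ 2 + |B| ^ 2 + 2 * (|A| * |B|) by ring]
    exact k1.trans (pow_le_pow_left₀ (by positivity) g7 2)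
  have g9 : ∀ u v w : ℝ, (u + v - w) ^ 2 ≤ (1 + 1 / 8) * u ^ 2 + 18 * v ^ 2 + 18 * w ^ 2 := by
    intro u v w
    have k1 := sq_nonneg (u - 16 * v)
    have k2 := sq_nonneg (u + 16 * w)
    have k3 := sq_nonneg (v + w)
    linarith [show (u + v - w) ^ 2 = u ^ 2 + v ^ 2 + w ^ 2 + 2 * (u * v) - 2 * (u * w) - 2 * (v * w)
      by ring, show (u - 16 * v) ^ 2 = u ^ 2 - 32 * (u * v) + 256 * v ^ 2 by ring,
      show (u + 16 * w) ^ 2 = u ^ 2 + 32 * (u * w) + 256 * w ^ 2 by ring,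
      show (v + w) ^ 2 = v ^ 2 + 2 * (v * w) + w ^ 2 by ring]
  have g10 := g9 u p A
  have g11 := g9 v q B
  have g12 := sq_nonneg t
  linarith [show (6 * t) ^ 2 = 36 * t ^ 2 by ring, show (t / 4) ^ 2 = t ^ 2 / 16 by ring,
    show (t / 20) ^ 2 = t ^ 2 / 400 by ring]

lemma sq_abs_le {a b B : ℝ} (hB : 0 ≤ B) (h : a ^ 2 + b ^ 2 ≤ B ^ 2) : |a| ≤ B ∧ |b| ≤ B := by
  constructor
  · exact abs_le_of_sq_le_sq (by linarith [sq_nonneg b]) hB
  · exact abs_le_of_sq_le_sq (by linarith [sq_nonneg a]) hB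

lemma fin1 {A Q K Λ c t J : ℝ} (hΛ : 0 < Λ) (hc : 0 < c) (ht : 0 < t) (hQ : 0 ≤ Q)
    (hK : K = (512 * Λ * Q / t + 8 * J ^ 2) / c ^ 2) (hA : A ≤ 4 * Q + 64 * K * (6 * Λ * t)) :
    A ≤ (4 + 196608 * Λ ^ 2 / c ^ 2 + 3072 * Λ / c ^ 2 + 1080000 * Λ / c) * (Q + t * J ^ 2) := by
  have a4 : 64 * K * (6 * Λ * t) =
      196608 * Λ ^ 2 / c ^ 2 * Q + 3072 * Λ / c ^ 2 * (t * J ^ 2) := by
    rw [hK]
    field_simp
    ring
  rw [a4] at hA
  have a5 : 0 ≤ (3072 * Λ / c ^ 2 + 1080000 * Λ / c) * Q := by positivity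
  have a6 : 0 ≤ (4 + 196608 * Λ ^ 2 / c ^ 2 + 1080000 * Λ / c) * (t * J ^ 2) := by positivity
  linarith [show (4 + 196608 * Λ ^ 2 / c ^ 2 + 3072 * Λ / c ^ 2 + 1080000 * Λ / c) *
    (Q + t * J ^ 2) = 4 * Q + 196608 * Λ ^ 2 / c ^ 2 * Q + 3072 * Λ / c ^ 2 * (t * J ^ 2) +
    (3072 * Λ / c ^ 2 + 1080000 * Λ / c) * Q +
    (4 + 196608 * Λ ^ 2 / c ^ 2 + 1080000 * Λ / c) * (t * J ^ 2) by ring]

lemma fin2 {A Q Λ c t J : ℝ} (hΛ : 0 < Λ) (hc : 0 < c) (ht : 0 < t)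
    (hQ : c / 3600 * t ^ 3 ≤ Q) (hA : A ≤ 50 * t ^ 2 * (6 * Λ * t)) :
    A ≤ (4 + 196608 * Λ ^ 2 / c ^ 2 + 3072 * Λ / c ^ 2 + 1080000 * Λ / c) * (Q + t * J ^ 2) := by
  have hQ0 : 0 ≤ Q := le_trans (by positivity) hQ
  have a3 : 1080000 * Λ / c * (c / 3600 * t ^ 3) ≤ 1080000 * Λ / c * Q :=
    mul_le_mul_of_nonneg_left hQ (by positivity)
  have e : 1080000 * Λ / c * (c / 3600 * t ^ 3) = 50 * t ^ 2 * (6 * Λ * t) := by
    field_simp
    ring
  rw [e] at a3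
  have a4 : 0 ≤ (4 + 196608 * Λ ^ 2 / c ^ 2 + 3072 * Λ / c ^ 2) * Q := by positivity
  have a5 : 0 ≤ (4 + 196608 * Λ ^ 2 / c ^ 2 + 3072 * Λ / c ^ 2 + 1080000 * Λ / c) *
    (t * J ^ 2) := by positivity
  linarith [show (4 + 196608 * Λ ^ 2 / c ^ 2 + 3072 * Λ / c ^ 2 + 1080000 * Λ / c) *
    (Q + t * J ^ 2) = 1080000 * Λ / c * Q + (4 + 196608 * Λ ^ 2 / c ^ 2 + 3072 * Λ / c ^ 2) * Q +
    (4 + 196608 * Λ ^ 2 / c ^ 2 + 3072 * Λ / c ^ 2 + 1080000 * Λ / c) * (t * J ^ 2) by ring]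

lemma aff {α β z z' t K : ℝ} (ht : 0 < t) (hz : |z - z'| ≤ 6 * t)
    (h1 : (α + β * (z' + 2 * t)) ^ 2 ≤ K) (h2 : (α + β * (z' - 2 * t)) ^ 2 ≤ K) :
    (α + β * z) ^ 2 ≤ 16 * K := by
  obtain ⟨hz1, hz2⟩ := abs_le.1 hz
  set A := α + β * (z' + 2 * t) with hA
  set B := α + β * (z' - 2 * t) with hB
  set l := (z - z' + 2 * t) / (4 * t) with hl
  have e1 : α + β * z = l * A + (1 - l) * B := by
    rw [hA, hB, hl]
    field_simp
    ring
  have l1 : l ≤ 2 := by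
    rw [hl, div_le_iff₀ (by positivity)]; linarith
  have l2 : -1 ≤ l := by
    rw [hl, le_div_iff₀ (by positivity)]; linarith
  rw [e1]
  clear_value A B l
  have l3 : l ^ 2 ≤ 4 := by nlinarith
  have l4 : (1 - l) ^ 2 ≤ 4 := by nlinarith
  have l5 : l ^ 2 * A ^ 2 ≤ 4 * K := mul_le_mul l3 h1 (sq_nonneg _) (by norm_num)
  have l6 : (1 - l) ^ 2 * B ^ 2 ≤ 4 * K := mul_le_mul l4 h2 (sq_nonneg _) (by norm_num)
  have l7 := sq_nonneg (l * A - (1 - l) * B)
  linarith [show (l * A + (1 - l) * B) ^ 2 = 2 * (l ^ 2 * A ^ 2) + 2 * ((1 - l) ^ 2 * B ^ 2) -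
    (l * A - (1 - l) * B) ^ 2 by ring]

lemma cross {mb c X MO MS M3 J Y P q D : ℝ} (hc : 0 < c) (hmb : c ≤ mb) (hJ : 0 ≤ J)
    (hD : D = Y - P) (hX : X = MO - P * MS - q * M3) (hMO : |MO - mb * Y| ≤ J)
    (hMS : |MS - mb| ≤ J) (hM3 : |M3| ≤ J) (hP : |P| ≤ 1 / 60) (hq : |q| ≤ 1 / 30) :
    D ^ 2 * c ^ 2 ≤ 2 * X ^ 2 + 8 * J ^ 2 := by
  have f2 : |P * (MS - mb)| ≤ 1 / 60 * J := by
    rw [abs_mul]
    exact mul_le_mul hP hMS (abs_nonneg _) (by norm_num)
  have f3 : |q * M3| ≤ 1 / 30 * J := by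
    rw [abs_mul]
    exact mul_le_mul hq hM3 (abs_nonneg _) (by norm_num)
  have f4 : mb * D = X - (MO - mb * Y) + P * (MS - mb) + q * M3 := by
    rw [hX, hD]; ring
  have f5 : |mb * D| ≤ |X| + 2 * J := by
    rw [f4]
    have k1 := abs_add_le (X - (MO - mb * Y) + P * (MS - mb)) (q * M3)
    have k2 := abs_add_le (X - (MO - mb * Y)) (P * (MS - mb))
    have k3 : |X - (MO - mb * Y)| ≤ |X| + |MO - mb * Y| := abs_sub _ _
    linarith
  have f6 : c * |D| ≤ |X| + 2 * J := by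
    rw [abs_mul, abs_of_pos (hc.trans_le hmb)] at f5
    exact (mul_le_mul_of_nonneg_right hmb (abs_nonneg _)).trans f5
  have f7 : (c * |D|) ^ 2 ≤ (|X| + 2 * J) ^ 2 :=
    pow_le_pow_left₀ (by positivity) f6 2
  have f8 : (|X| + 2 * J) ^ 2 ≤ 2 * X ^ 2 + 8 * J ^ 2 := by
    rw [← sq_abs X]
    have := sq_nonneg (|X| - 2 * J)
    linarith [show (|X| + 2 * J) ^ 2 = 2 * |X| ^ 2 + 8 * J ^ 2 - (|X| - 2 * J) ^ 2 by ring]
  have f9 : (c * |D|) ^ 2 = D ^ 2 * c ^ 2 := by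
    rw [mul_pow, sq_abs]; ring
  rw [← f9]
  exact f7.trans f8

lemma combine {x0 x1 Y0 Y1 P0 P1 K dd : ℝ}
    (k0 : (Y0 - P0) ^ 2 ≤ 16 * K) (k1 : (Y1 - P1) ^ 2 ≤ 16 * K)
    (k2 : (x0 - P0) ^ 2 + (x1 - P1) ^ 2 ≤ 2 * dd) :
    (x0 - Y0) ^ 2 + (x1 - Y1) ^ 2 ≤ 4 * dd + 64 * K := by
  have k3 : ∀ u v : ℝ, (u - v) ^ 2 ≤ 2 * u ^ 2 + 2 * v ^ 2 := by
    intro u v
    linarith [sq_nonneg (u + v), show (u - v) ^ 2 = 2 * u ^ 2 + 2 * v ^ 2 - (u + v) ^ 2 by ring]
  have k4 := k3 (x0 - P0) (Y0 - P0)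
  have k5 := k3 (x1 - P1) (Y1 - P1)
  have k6 : x0 - P0 - (Y0 - P0) = x0 - Y0 := by ring
  have k7 : x1 - P1 - (Y1 - P1) = x1 - Y1 := by ring
  rw [k6] at k4
  rw [k7] at k5
  linarith

/-- The main estimate for one line. -/
theorem main (hMUF : T_MUF) (hBTF : T_BTF) (hCHF : T_CHF) (hLGR : T_LGR) (Λ c : ℝ) (hΛ : 0 < Λ)
    (hc : 0 < c) (m : ℕ) (G : V → V →L[ℝ] E m) (hGD : GD Λ G) (h rc J mb y0 y1 s0 s1 : ℝ)
    (hh : 0 < h) (hrc : 0 < rc) (hrh : rc ≤ h / 100) (hJ : 0 ≤ J) (hmb : c ≤ mb)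
    (hy : |y0| + |y1| ≤ h / 50) (hs : |s0| + |s1| ≤ h / 50)
    (hCen : Cen G h J mb y0 y1 s0 s1) (hThn : Thn G h rc c) (x' : V) (t : ℝ) (hht : h ≤ t)
    (ht8 : t ≤ 1 / 8) (hx' : rho x' ≤ t / 4) (hx2 : |x' 2| + 2 * t + t / 4 ≤ 3 / 8)
    (hsub : ball x' (8 * t) ⊆ ball 0 2) (a T : V) (hT : ‖T‖ = 1) :
    ∫⁻ x in ball x' (6 * t), ENNReal.ofReal (hd y0 y1 s0 s1 x) ∂(mu G) ≤
      ENNReal.ofReal (4 + 196608 * Λ ^ 2 / c ^ 2 + 3072 * Λ / c ^ 2 + 1080000 * Λ / c) *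
        ((∫⁻ y in ball x' (8 * t), ENNReal.ofReal (dl a T y) ∂(mu G)) +
          ENNReal.ofReal (t * J ^ 2)) := by
  have ht : 0 < t := hh.trans_le hht
  obtain ⟨CC, hCC, hchi⟩ := hCHF
  obtain ⟨hchi1, hchi2, hchi3, hchi4, -⟩ := hchi h hh
  obtain ⟨hM1, hM2, hM3, hM4, hM5, hM6⟩ := hMUF m G hGD.memG
  have hsub6 : ball x' (6 * t) ⊆ ball 0 2 := (ball_subset_ball (by linarith)).trans hsub
  have hdl0 : ∀ y, 0 ≤ dl a T y := fun y => (hBTF.1 a T y hT).1
  -- the second moment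
  obtain ⟨hQI, hQE⟩ := hM5 (fun y => dl a T y) (ball x' (8 * t)) ((‖x' - a‖ + 8 * t) ^ 2)
    (dl_cont a T).measurable measurableSet_ball hsub (by
      intro y hy'
      refine ⟨hdl0 y, (hBTF.1 a T y hT).2.trans ?_⟩
      have h1 : ‖y - a‖ ≤ ‖x' - a‖ + 8 * t := by
        have h2 : y - a = (y - x') + (x' - a) := by abel
        rw [h2]
        refine (norm_add_le _ _).trans ?_
        rw [mem_ball, dist_eq_norm] at hy'
        linarith
      exact pow_le_pow_left₀ (norm_nonneg _) h1 2)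
  -- geometry on the small ball
  have hgeo : ∀ x ∈ ball x' (6 * t), |x 2 - x' 2| ≤ 6 * t ∧ hd y0 y1 s0 s1 x ≤ 50 * t ^ 2 :=
    fun x hx => hd_le ht hht ht8 hy hs hx' hx2 hx
  have hhd0 : ∀ x, 0 ≤ hd y0 y1 s0 s1 x := by
    intro x
    unfold hd
    positivity
  obtain ⟨hAI, hAE⟩ := hM5 (fun y => hd y0 y1 s0 s1 y) (ball x' (6 * t)) (50 * t ^ 2)
    (hd_cont y0 y1 s0 s1).measurable measurableSet_ball hsub6
    (fun x hx => ⟨hhd0 x, (hgeo x hx).2⟩)
  set Q := ∫ x in ball x' (8 * t), dl a T x * nsq (G x) with hQ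
  have hQ0 : 0 ≤ Q := integral_nonneg fun x => mul_nonneg (hdl0 x) (nsq_nn _)
  obtain ⟨hI8, hI8e⟩ := hM4 (ball x' (8 * t)) measurableSet_ball hsub
  obtain ⟨hI6, hI6e⟩ := hM4 (ball x' (6 * t)) measurableSet_ball hsub6
  have hd8 : ∫ x in ball x' (8 * t), nsq (G x) ≤ 8 * Λ * t := by
    rw [← hI8e]
    have := hGD.den x' (8 * t) (by positivity) hsub
    linarith
  have hd6 : ∫ x in ball x' (6 * t), nsq (G x) ≤ 6 * Λ * t := by
    rw [← hI6e]
    have := hGD.den x' (6 * t) (by positivity) hsub6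
    linarith
  have hd60 : 0 ≤ ∫ x in ball x' (6 * t), nsq (G x) := integral_nonneg fun x => nsq_nn _
  rw [hAE, hQE, ← ENNReal.ofReal_add hQ0 (by positivity), ← ENNReal.ofReal_mul (by positivity)]
  refine ENNReal.ofReal_le_ofReal ?_
  rcases le_or_gt (c / 3600 * t ^ 3) Q with hcase | hcase
  · -- large second moment
    have a1 : ∫ x in ball x' (6 * t), hd y0 y1 s0 s1 x * nsq (G x) ≤
        ∫ x in ball x' (6 * t), 50 * t ^ 2 * nsq (G x) := by
      refine setIntegral_mono_on hAI (hI6.const_mul _) measurableSet_ball fun x hx => ?_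
      exact mul_le_mul_of_nonneg_right (hgeo x hx).2 (nsq_nn _)
    rw [integral_const_mul] at a1
    have a2 : 50 * t ^ 2 * ∫ x in ball x' (6 * t), nsq (G x) ≤ 50 * t ^ 2 * (6 * Λ * t) :=
      mul_le_mul_of_nonneg_left hd6 (by positivity)
    exact fin2 hΛ hc ht hcase (a1.trans a2)
  · -- small second moment: two points of the thin core
    have hz1 : |x' 2 + 2 * t| ≤ |x' 2| + 2 * t := by
      have := abs_add_le (x' 2) (2 * t)
      rwa [abs_of_pos (show 0 < 2 * t by positivity)] at this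
    have hz2 : |x' 2 - 2 * t| ≤ |x' 2| + 2 * t := by
      have := abs_sub (x' 2) (2 * t)
      rwa [abs_of_pos (show 0 < 2 * t by positivity)] at this
    have hfind : ∀ z₀ : ℝ, |z₀| + t / 4 ≤ 3 / 8 → |z₀ - x' 2| ≤ 2 * t →
        ∃ x : V, |x 2 - z₀| < t / 4 ∧ rho x ≤ t / 100 ∧ dl a T x ≤ t ^ 2 / 900 := by
      intro z₀ hz₀ hzz
      by_contra hcon
      push Not at hcon
      set S : Set V := {x : V | rho x < rc ∧ |x 2 - z₀| < t / 4} with hS
      have b1 : c * (t / 4) ≤ (mu G).real S := hThn z₀ (t / 4) (by linarith) (by linarith)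
      have b2 : S ⊆ ball x' (8 * t) := by
        intro x hx
        refine ball_of ht ?_ (rho_sq hx') ?_
        · exact rho_sq (hx.1.le.trans (by linarith))
        · have : |x 2 - x' 2| ≤ |x 2 - z₀| + |z₀ - x' 2| := abs_sub_le _ _ _
          have := hx.2
          linarith
      have hSm : MeasurableSet S := by
        have c1 : Continuous (fun x : V => rho x) := by
          unfold rho
          fun_prop
        have c2 : Continuous (fun x : V => |x 2 - z₀|) := by fun_prop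
        exact (isOpen_lt c1 continuous_const).measurableSet.inter
          (isOpen_lt c2 continuous_const).measurableSet
      obtain ⟨b3, b4⟩ := hM4 S hSm (b2.trans hsub)
      have b5 : t ^ 2 / 900 * ∫ x in S, nsq (G x) ≤ ∫ x in S, dl a T x * nsq (G x) := by
        rw [← integral_const_mul]
        refine setIntegral_mono_on (b3.const_mul _) (hQI.mono_set b2) hSm fun x hx => ?_
        refine mul_le_mul_of_nonneg_right ?_ (nsq_nn _)
        exact (hcon x hx.2 (hx.1.le.trans (by linarith))).le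
      have b6 : ∫ x in S, dl a T x * nsq (G x) ≤ Q := by
        refine setIntegral_mono_set hQI ?_ (Eventually.of_forall b2)
        exact Eventually.of_forall fun x => mul_nonneg (hdl0 x) (nsq_nn _)
      rw [← b4] at b5
      have b7 : t ^ 2 / 900 * (c * (t / 4)) ≤ t ^ 2 / 900 * (mu G).real S :=
        mul_le_mul_of_nonneg_left b1 (by positivity)
      have b8 : t ^ 2 / 900 * (c * (t / 4)) = c / 3600 * t ^ 3 := by ring
      linarith
    obtain ⟨x₁, h11, h12, h13⟩ := hfind (x' 2 + 2 * t) (by linarith) (by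
      rw [add_sub_cancel_left, abs_of_pos (by positivity)])
    obtain ⟨x₂, h21, h22, h23⟩ := hfind (x' 2 - 2 * t) (by linarith) (by
      rw [sub_sub_cancel_left, abs_neg, abs_of_pos (by positivity)])
    obtain ⟨p0, p1, q0, q1, hq, hp, hhd⟩ := hLGR a T x₁ x₂ t (x' 2) hT ht h11 h21 h12 h22 h13 h23
    -- the windows
    have hwin : ∀ z₀ : ℝ, |z₀| + t / 4 ≤ 3 / 8 → |z₀ - x' 2| ≤ 2 * t →
        ∀ (j : Fin (1 + 2)) (p q y s : ℝ), (∀ x : V, (x j - (p + q * x 2)) ^ 2 ≤ 2 * dl a T x) →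
        |q| ≤ 1 / 30 → |p + q * x' 2| ≤ t / 20 → |mo G h j z₀ (t / 4) - mb * (y + s * z₀)| ≤ J →
        ((y + s * z₀) - (p + q * z₀)) ^ 2 ≤ (512 * Λ * Q / t + 8 * J ^ 2) / c ^ 2 := by
      intro z₀ hz₀ hzz j p q y s hf hq' hp' hmo
      have ht4 : 0 < t / 4 := by positivity
      have hms := hCen.w1 z₀ (t / 4) ht4 hz₀
      have hw3 := hCen.w3 z₀ (t / 4) ht4 hz₀
      set w : V → ℝ := fun x => chh h x * bw z₀ (t / 4) (x 2) with hw
      have hcm : Measurable (chh h) := hchi1.continuous.measurable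
      have hx2m : Measurable (fun x : V => x 2) :=
        (show Continuous (fun x : V => x 2) by fun_prop).measurable
      have hxjm : Measurable (fun x : V => x j) :=
        (show Continuous (fun x : V => x j) by fun_prop).measurable
      have hbm : Measurable (fun x : V => bw z₀ (t / 4) (x 2)) :=
        (bw_cont z₀ (t / 4)).measurable.comp hx2m
      have hwm : Measurable w := hcm.mul hbm
      have hwle : ∀ x, |w x| ≤ 4 / t := by
        intro x
        rw [hw]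
        simp only
        rw [abs_mul, abs_of_nonneg (hchi2 x).1, abs_of_nonneg (bw_nn ht4 _)]
        have e1 := bw_le (z₀ := z₀) ht4 (x 2)
        have e2 : (t / 4)⁻¹ = 4 / t := by rw [inv_div]
        rw [e2] at e1
        calc chh h x * bw z₀ (t / 4) (x 2) ≤ 1 * (4 / t) :=
              mul_le_mul (hchi2 x).2 e1 (bw_nn ht4 _) zero_le_one
          _ = 4 / t := one_mul _
      have hw0 : ∀ x ∉ ball x' (8 * t), w x = 0 := by
        intro x hx
        by_contra hne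
        apply hx
        rw [hw] at hne
        simp only [mul_eq_zero, not_or] at hne
        have r1 : rho x < 2 * h := by
          by_contra hr
          exact hne.1 (hchi4 x (not_lt.1 hr))
        have r2 : |x 2 - z₀| < t / 4 := by
          by_contra hr
          exact hne.2 (bw_zero ht4 (not_lt.1 hr))
        refine ball_of ht (rho_sq (r1.le.trans (by linarith))) (rho_sq hx') ?_
        have : |x 2 - x' 2| ≤ |x 2 - z₀| + |z₀ - x' 2| := abs_sub_le _ _ _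
        linarith
      have hcs := cs_bound G a T x' (8 * t) (4 / t) (8 * Λ * t) w (fun x => x j - (p + q * x 2))
        (by positivity) (by positivity) hsub hI8 hd8 hQI hwle hw0 hf
      rw [← hQ] at hcs
      set X := ∫ x in ball (0 : V) 2, w x * (x j - (p + q * x 2)) * tz (G x) with hX
      have hcs2 : X ^ 2 ≤ 256 * Λ * Q / t := by
        refine hcs.trans (le_of_eq ?_)
        field_simp
        ring
      have hxj : ∀ x ∈ ball (0 : V) 2, ∀ i : Fin (1 + 2), |x i| ≤ 2 := by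
        intro x hx i
        rw [mem_ball, dist_zero_right] at hx
        exact (abs_le3 x i).trans hx.le
      have i1 : IntegrableOn (fun x => w x * x j * tz (G x)) (ball (0 : V) 2) := by
        refine int_tz hMUF G hGD.memG (fun x => w x * x j) (4 / t * 2) (hwm.mul hxjm) ?_
        intro x hx
        rw [abs_mul]
        exact mul_le_mul (hwle x) (hxj x hx j) (abs_nonneg _) (by positivity)
      have i2 : IntegrableOn (fun x => w x * tz (G x)) (ball (0 : V) 2) :=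
        int_tz hMUF G hGD.memG w (4 / t) hwm (fun x _ => hwle x)
      have i3 : IntegrableOn (fun x => chh h x * ((x 2 - z₀) * bw z₀ (t / 4) (x 2)) * tz (G x))
          (ball (0 : V) 2) := by
        refine int_tz hMUF G hGD.memG (fun x => chh h x * ((x 2 - z₀) * bw z₀ (t / 4) (x 2)))
          (4 / t * (2 + |z₀|)) (hcm.mul ((hx2m.sub_const _).mul hbm)) ?_
        intro x hx
        have e1 : chh h x * ((x 2 - z₀) * bw z₀ (t / 4) (x 2)) = w x * (x 2 - z₀) := by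
          rw [hw]; ring
        rw [e1, abs_mul]
        refine mul_le_mul (hwle x) ?_ (abs_nonneg _) (by positivity)
        have e2 : |x 2 - z₀| ≤ |x 2| + |z₀| := abs_sub _ _
        have := hxj x hx 2
        linarith
      have hXe : X = mo G h j z₀ (t / 4) - (p + q * z₀) * ms G h z₀ (t / 4) -
          q * ∫ x in ball (0 : V) 2, chh h x * ((x 2 - z₀) * bw z₀ (t / 4) (x 2)) * tz (G x) := by
        have e1 : mo G h j z₀ (t / 4) = ∫ x in ball (0 : V) 2, w x * x j * tz (G x) := rfl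
        have e2 : ms G h z₀ (t / 4) = ∫ x in ball (0 : V) 2, w x * tz (G x) := rfl
        have e3 : ∫ x in ball (0 : V) 2, (w x * x j * tz (G x) -
            (p + q * z₀) * (w x * tz (G x))) = (∫ x in ball (0 : V) 2, w x * x j * tz (G x)) -
            ∫ x in ball (0 : V) 2, (p + q * z₀) * (w x * tz (G x)) :=
          integral_sub i1 (i2.const_mul _)
        have e4 : ∫ x in ball (0 : V) 2, ((w x * x j * tz (G x) -
            (p + q * z₀) * (w x * tz (G x))) -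
            q * (chh h x * ((x 2 - z₀) * bw z₀ (t / 4) (x 2)) * tz (G x))) =
            (∫ x in ball (0 : V) 2, (w x * x j * tz (G x) - (p + q * z₀) * (w x * tz (G x)))) -
            ∫ x in ball (0 : V) 2,
              q * (chh h x * ((x 2 - z₀) * bw z₀ (t / 4) (x 2)) * tz (G x)) :=
          integral_sub (i1.sub (i2.const_mul _)) (i3.const_mul _)
        rw [e1, e2, ← integral_const_mul, ← integral_const_mul, ← e3, ← e4]
        refine integral_congr_ae (Eventually.of_forall fun x => ?_)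
        simp only [hw]
        ring
      have f1 : |p + q * z₀| ≤ 1 / 60 := by
        have e0 : p + q * z₀ = (p + q * x' 2) + q * (z₀ - x' 2) := by ring
        rw [e0]
        refine (abs_add_le _ _).trans ?_
        rw [abs_mul]
        have e1 : |q| * |z₀ - x' 2| ≤ 1 / 30 * (2 * t) :=
          mul_le_mul hq' hzz (abs_nonneg _) (by norm_num)
        linarith
      have f0 : t / 4 * J ≤ J := by
        have := mul_le_mul_of_nonneg_right (show t / 4 ≤ 1 by linarith) hJ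
        rwa [one_mul] at this
      have f2 := cross hc hmb hJ rfl hXe hmo hms (hw3.trans f0) f1 hq'
      rw [le_div_iff₀ (by positivity)]
      refine f2.trans ?_
      have f10 : 512 * Λ * Q / t = 2 * (256 * Λ * Q / t) := by ring
      rw [f10]
      linarith
    obtain ⟨hq0, hq1⟩ : |q0| ≤ 1 / 30 ∧ |q1| ≤ 1 / 30 :=
      sq_abs_le (by norm_num) (hq.trans (by norm_num))
    obtain ⟨hp0, hp1⟩ : |p0 + q0 * x' 2| ≤ t / 20 ∧ |p1 + q1 * x' 2| ≤ t / 20 :=
      sq_abs_le (by positivity) (hp.trans (le_of_eq (by ring)))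
    have hf0 : ∀ x : V, (x 0 - (p0 + q0 * x 2)) ^ 2 ≤ 2 * dl a T x :=
      fun x => (le_add_of_nonneg_right (sq_nonneg _)).trans (hhd x)
    have hf1 : ∀ x : V, (x 1 - (p1 + q1 * x 2)) ^ 2 ≤ 2 * dl a T x :=
      fun x => (le_add_of_nonneg_left (sq_nonneg _)).trans (hhd x)
    have hzp : |x' 2 + 2 * t| + t / 4 ≤ 3 / 8 := by linarith
    have hzm : |x' 2 - 2 * t| + t / 4 ≤ 3 / 8 := by linarith
    have hzp' : |x' 2 + 2 * t - x' 2| ≤ 2 * t := by
      rw [add_sub_cancel_left, abs_of_pos (by positivity)]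
    have hzm' : |x' 2 - 2 * t - x' 2| ≤ 2 * t := by
      rw [sub_sub_cancel_left, abs_neg, abs_of_pos (by positivity)]
    have ht4 : 0 < t / 4 := by positivity
    have W0p := hwin _ hzp hzp' 0 p0 q0 y0 s0 hf0 hq0 hp0 (hCen.w2 _ _ ht4 hzp).1
    have W0m := hwin _ hzm hzm' 0 p0 q0 y0 s0 hf0 hq0 hp0 (hCen.w2 _ _ ht4 hzm).1
    have W1p := hwin _ hzp hzp' 1 p1 q1 y1 s1 hf1 hq1 hp1 (hCen.w2 _ _ ht4 hzp).2
    have W1m := hwin _ hzm hzm' 1 p1 q1 y1 s1 hf1 hq1 hp1 (hCen.w2 _ _ ht4 hzm).2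
    set K := (512 * Λ * Q / t + 8 * J ^ 2) / c ^ 2 with hK
    have hK0 : 0 ≤ K := by positivity
    -- affine interpolation
    have hpt : ∀ x ∈ ball x' (6 * t), hd y0 y1 s0 s1 x ≤ 4 * dl a T x + 64 * K := by
      intro x hx
      have hz := (hgeo x hx).1
      have k0 := aff (α := y0 - p0) (β := s0 - q0) (K := K) ht hz (by
        have e : y0 - p0 + (s0 - q0) * (x' 2 + 2 * t) =
          (y0 + s0 * (x' 2 + 2 * t)) - (p0 + q0 * (x' 2 + 2 * t)) := by ring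
        rw [e]; exact W0p) (by
        have e : y0 - p0 + (s0 - q0) * (x' 2 - 2 * t) =
          (y0 + s0 * (x' 2 - 2 * t)) - (p0 + q0 * (x' 2 - 2 * t)) := by ring
        rw [e]; exact W0m)
      have k1 := aff (α := y1 - p1) (β := s1 - q1) (K := K) ht hz (by
        have e : y1 - p1 + (s1 - q1) * (x' 2 + 2 * t) =
          (y1 + s1 * (x' 2 + 2 * t)) - (p1 + q1 * (x' 2 + 2 * t)) := by ring
        rw [e]; exact W1p) (by
        have e : y1 - p1 + (s1 - q1) * (x' 2 - 2 * t) =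
          (y1 + s1 * (x' 2 - 2 * t)) - (p1 + q1 * (x' 2 - 2 * t)) := by ring
        rw [e]; exact W1m)
      have e0 : y0 - p0 + (s0 - q0) * x 2 = (y0 + s0 * x 2) - (p0 + q0 * x 2) := by ring
      have e1 : y1 - p1 + (s1 - q1) * x 2 = (y1 + s1 * x 2) - (p1 + q1 * x 2) := by ring
      rw [e0] at k0
      rw [e1] at k1
      exact combine k0 k1 (hhd x)
    have hQI6 : IntegrableOn (fun x => dl a T x * nsq (G x)) (ball x' (6 * t)) :=
      hQI.mono_set (ball_subset_ball (by linarith))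
    have a1 : ∫ x in ball x' (6 * t), hd y0 y1 s0 s1 x * nsq (G x) ≤
        ∫ x in ball x' (6 * t), (4 * (dl a T x * nsq (G x)) + 64 * K * nsq (G x)) := by
      refine setIntegral_mono_on hAI ((hQI6.const_mul _).add (hI6.const_mul _))
        measurableSet_ball fun x hx => ?_
      have := mul_le_mul_of_nonneg_right (hpt x hx) (nsq_nn (G x))
      linarith
    rw [integral_add (hQI6.const_mul _) (hI6.const_mul _), integral_const_mul,
      integral_const_mul] at a1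
    have a2 : ∫ x in ball x' (6 * t), dl a T x * nsq (G x) ≤ Q := by
      refine setIntegral_mono_set hQI ?_ (Eventually.of_forall (ball_subset_ball (by linarith)))
      exact Eventually.of_forall fun x => mul_nonneg (hdl0 x) (nsq_nn _)
    have a3 : 64 * K * ∫ x in ball x' (6 * t), nsq (G x) ≤ 64 * K * (6 * Λ * t) :=
      mul_le_mul_of_nonneg_left hd6 (by positivity)
    exact fin1 hΛ hc ht hQ0 hK (by linarith)

theorem pf_CMP (hMUF : T_MUF) (hBTF : T_BTF) (hCHF : T_CHF) (hLGR : T_LGR) : T_CMP := by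
  intro Λ c hΛ hc
  refine ⟨4 + 196608 * Λ ^ 2 / c ^ 2 + 3072 * Λ / c ^ 2 + 1080000 * Λ / c, by positivity, ?_⟩
  intro m G hGD h rc J mb y0 y1 s0 s1 hh hh2 hrc hrh hJ hmb hy hs hCen hThn x' t hht ht8 hx' hx2 hsub
  have ht : 0 < t := hh.trans_le hht
  set C := 4 + 196608 * Λ ^ 2 / c ^ 2 + 3072 * Λ / c ^ 2 + 1080000 * Λ / c with hC
  have hC0 : 0 < C := by positivity
  set A := ∫⁻ x in ball x' (6 * t), ENNReal.ofReal (hd y0 y1 s0 s1 x) ∂(mu G) with hA
  have hCne : ENNReal.ofReal C ≠ 0 := by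
    rw [Ne, ENNReal.ofReal_eq_zero, not_le]; exact hC0
  have hCnt : ENNReal.ofReal C ≠ ⊤ := ENNReal.ofReal_ne_top
  have ht3 : ENNReal.ofReal (t ^ 3) ≠ 0 := by
    rw [Ne, ENNReal.ofReal_eq_zero, not_le]; positivity
  have ht3t : ENNReal.ofReal (t ^ 3) ≠ ⊤ := ENNReal.ofReal_ne_top
  have key : (A / ENNReal.ofReal C - ENNReal.ofReal (t * J ^ 2)) / ENNReal.ofReal (t ^ 3) ≤
      bt G x' t := by
    unfold bt
    refine le_iInf fun a => le_iInf fun T => le_iInf fun hT => ?_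
    have h1 := main hMUF hBTF hCHF hLGR Λ c hΛ hc m G hGD h rc J mb y0 y1 s0 s1 hh hrc hrh hJ hmb
      hy hs hCen hThn x' t hht ht8 hx' hx2 hsub a T hT
    rw [← hC, ← hA] at h1
    rw [ENNReal.ofReal_inv_of_pos (by positivity),
      mul_comm _ (∫⁻ y in ball x' (8 * t), ENNReal.ofReal (dl a T y) ∂(mu G)), ← div_eq_mul_inv]
    refine ENNReal.div_le_div_right ?_ _
    rw [tsub_le_iff_right]
    refine ENNReal.div_le_of_le_mul' h1
  have h2 : A / ENNReal.ofReal C - ENNReal.ofReal (t * J ^ 2) ≤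
      ENNReal.ofReal (t ^ 3) * bt G x' t := by
    have := mul_le_mul_right key (ENNReal.ofReal (t ^ 3))
    rwa [ENNReal.mul_div_cancel ht3 ht3t] at this
  rw [tsub_le_iff_right] at h2
  have h3 := mul_le_mul_right h2 (ENNReal.ofReal C)
  rwa [ENNReal.mul_div_cancel hCne hCnt] at h3

end

end Pool.Agent.H10.D3
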